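import Mathlib
import Pool.Agent.Helper51.NC.Defs
import Pool.Agent.Helper51.NC.Frob

/-!
Nearly commuting 4 × 4 matrices in characteristic two: the rings `R/P`, `R/Q` and `R/(P+Q)` are
not all F-regular.
-/

namespace Pool.Agent.Results.MP_b5467b_ag.SizeFourCharTwo

open Pool.Agent.Helper51.NC

/-- For every algebraically closed field `K` of characteristic two and `n = 4`, the ideal `I` of
nearly commuting matrices has exactly two minimal primes, `P = √J` and another one `Q`, and the
three rings `R/P`, `R/Q`, `R/(P+Q)` are not all F-regular. -/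
theorem result (K : Type) [Field K] [IsAlgClosed K] [CharP K 2] :
    ∃ Q : Ideal (PolyXY 4 K), Q ≠ idealP 4 K ∧ (idealI 4 K).minimalPrimes = {idealP 4 K, Q} ∧
      ¬ (IsFRegular 2 (PolyXY 4 K ⧸ idealP 4 K) ∧ IsFRegular 2 (PolyXY 4 K ⧸ Q) ∧
        IsFRegular 2 (PolyXY 4 K ⧸ (idealP 4 K ⊔ Q))) := by
  have h2 : (2 : K) = 0 := by exact_mod_cast CharP.cast_eq_zero K 2
  exact reduction h2 (prod_uoff_mem h2)

end Pool.Agent.Results.MP_b5467b_ag.SizeFourCharTwo
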